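import Pool.Agent.Q61.WE.Stm

/-!
# WE-9: `S_CUT`
-/

set_option autoImplicit false

namespace Pool.Agent.Q206.WE

open MeasureTheory Filter Topology Set Metric
open scoped ENNReal NNReal Manifold ContDiff
open Pool.Agent.Q61.WE

theorem cut9 : S_CUT := by
  intro n U hU hb η hη
  have hfin : volume U ≠ ⊤ := hb.measure_lt_top.ne
  obtain ⟨K, hKU, hK, hlt⟩ := hU.measurableSet.exists_isCompact_lt_add hfin
    (ε := ENNReal.ofReal η) (by simpa using hη)
  obtain ⟨K1, hK1, hKK1, hK1U⟩ := exists_compact_between hK hU hKU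
  obtain ⟨K2, hK2, hK12, hK2U⟩ := exists_compact_between hK1 hU hK1U
  obtain ⟨f, hf1, hf0, hf⟩ := exists_contMDiffMap_one_nhds_of_subset_interior
    𝓘(ℝ, E n) (n := 2) hK1.isClosed hK12
  have hts : tsupport (f : E n → ℝ) ⊆ K2 := by
    apply closure_minimal _ hK2.isClosed
    intro x hx
    by_contra h
    exact hx (hf0 x h)
  refine ⟨f, ?_, ?_, hts.trans hK2U, fun y => hf y, interior K1, isOpen_interior,
    interior_subset.trans hK1U, ?_, ?_⟩
  · exact f.contMDiff.contDiff
  · exact HasCompactSupport.of_support_subset_isCompact hK2 (subset_closure.trans hts)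
  · intro y hy
    exact hf1.self_of_nhdsSet y (interior_subset hy)
  · have h1 : volume K ≤ volume (interior K1) := measure_mono hKK1
    have h2 : volume U ≤ volume (interior K1) + ENNReal.ofReal η :=
      hlt.le.trans (by gcongr)
    have h3 : volume (interior K1) ≠ ⊤ :=
      ((measure_mono (interior_subset.trans hK1U)).trans_lt hb.measure_lt_top).ne
    have h4 := ENNReal.toReal_mono (ENNReal.add_ne_top.mpr ⟨h3, ENNReal.ofReal_ne_top⟩) h2
    rw [ENNReal.toReal_add h3 ENNReal.ofReal_ne_top, ENNReal.toReal_ofReal hη.le] at h4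
    simp only [Measure.real]
    linarith

end Pool.Agent.Q206.WE
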