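import Pool.Agent.Q61.WE.Stm

/-!
# WE-18: `S_FINAL` from `S_EXP`
-/

set_option autoImplicit false

namespace Pool.Agent.Q206.WE

open MeasureTheory Filter Topology Set Metric
open scoped ENNReal NNReal
open Pool.Agent.Q61.WE

theorem fin18 (hE : S_EXP) : S_FINAL := by
  intro n hn
  have hn0 : (0 : ℝ) < n := by
    have : 0 < n := by omega
    exact_mod_cast this
  refine ⟨40 * (2848 * (n : ℝ)) ^ (n - 1), by positivity, 6000 * (n : ℝ), ?_⟩
  intro lam Lam hl hL hLl
  have hq : 0 < Lam / lam := by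
    have : 0 < Lam := lt_of_lt_of_le hl hL
    positivity
  unfold epsStar
  refine iSup_le fun ε => iSup_le fun hε => iSup_le fun hH => ?_
  apply ENNReal.ofReal_le_ofReal
  have h1 := hE n lam Lam ε hn hl hL hLl hH
  refine h1.trans (le_of_eq ?_)
  unfold epn
  have h2 : (Lam / lam) ^ (1 - (n : ℝ)) = ((Lam / lam) ^ (n - 1))⁻¹ := by
    have : (1 - (n : ℝ)) = -(((n - 1 : ℕ) : ℝ)) := by
      rw [Nat.cast_sub (by omega)]
      push_cast
      ring
    rw [this, Real.rpow_neg hq.le, Real.rpow_natCast]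
  rw [h2, div_pow]
  field_simp
  ring

end Pool.Agent.Q206.WE
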