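import Pool.Agent.Q61.WE.Stm

/-!
# WE-16: `S_START` from `S_IND`, `S_GW`, `S_REF`
-/

set_option autoImplicit false

namespace Pool.Agent.Q206.WE

open MeasureTheory Filter Topology Set Metric
open scoped ENNReal NNReal
open Pool.Agent.Q61.WE

theorem start16 (hI : S_IND) (hG : S_GW) (hR : S_REF) : S_START := by
  intro n lam Lam T hn hl hL hLl hT
  have hn0 : (0 : ℝ) < n := by
    have : 0 < n := by omega
    exact_mod_cast this
  set L := Lam / lam with hLdef
  have hLpos : 0 < L := lt_of_lt_of_le (by positivity) hLl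
  have hx : ∀ l : Fin n, -1 ≤ x0 n l ∧ x0 n l ≤ 1 := by
    intro l
    unfold x0
    split_ifs <;> constructor <;> norm_num
  have hS : Sta n L (x0 n) 1 1 := by
    refine ⟨one_pos, fun l => (hx l).1, ⟨⟨1, by omega⟩, by simp [x0]⟩, fun l => (hx l).2,
      ⟨⟨0, by omega⟩, by simp [x0]⟩, le_refl _, ?_⟩
    rw [le_div_iff₀ (by positivity)]
    nlinarith
  have h1 := hI n lam Lam T (x0 n) 1 1 hn hl hL hLl (by linarith) hS (by nlinarith)
  refine (hR n lam Lam T (x0 n) hl hL).2.2.2 _ _ ?_ h1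
  have hb : 0 ≤ (Lam / lam * T ^ 2) ^ (-epn n (Lam / lam)) := by
    apply Real.rpow_nonneg
    rw [← hLdef]
    positivity
  rw [mul_comm (1 / 2 : ℝ)]
  refine mul_le_mul_of_nonneg_left ?_ hb
  rw [← hLdef]
  obtain ⟨g1, -, -, g4, -, -, -, g8⟩ := hG n L hn hLl
  unfold Vp
  have hone : ((1 : ℝ) * 1) ^ epn n L = 1 := by
    rw [mul_one, Real.one_rpow]
  rw [hone, one_mul]
  refine le_trans ?_ (le_max_right _ _)
  have hphi : Phi n L (x0 n) 1 ≤ (89 / L) ^ (n - 1) := by
    unfold Phi
    have hg0 := g1 0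
    rw [div_le_iff₀ hg0]
    have hone1 : x0 n ⟨1, by omega⟩ = -1 := by simp [x0]
    have hneg : gw L (x0 n ⟨1, by omega⟩ / 1) = gw L 0 := by
      rw [hone1]
      unfold gw
      norm_num
    rw [← Finset.mul_prod_erase Finset.univ (fun l => gw L (x0 n l / 1))
      (Finset.mem_univ (⟨1, by omega⟩ : Fin n)), hneg, mul_comm]
    refine mul_le_mul_of_nonneg_right ?_ hg0.le
    have hcard : (Finset.univ.erase (⟨1, by omega⟩ : Fin n)).card = n - 1 := by
      rw [Finset.card_erase_of_mem (Finset.mem_univ _)]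
      simp
    rw [← hcard]
    rw [← Finset.prod_const]
    refine Finset.prod_le_prod (fun l _ => (g1 _).le) ?_
    intro l _
    apply g4
    have := (hx l).2
    rw [div_one]
    linarith
  have hA : 0 ≤ Ac n := by unfold Ac; positivity
  have h2 : Ac n * Phi n L (x0 n) 1 ≤ 1 / 2 := by
    calc Ac n * Phi n L (x0 n) 1 ≤ Ac n * (89 / L) ^ (n - 1) :=
          mul_le_mul_of_nonneg_left hphi hA
      _ = (2848 * (n : ℝ) / L) ^ (n - 1) := by
          unfold Ac
          rw [← mul_pow]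
          congr 1
          ring
      _ ≤ 1 / 2 := g8
  linarith

end Pool.Agent.Q206.WE
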